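import Pool.Agent.Lib.helper1.PolyVdW

set_option autoImplicit false

namespace Pool.Agent.H.MP_556fef_co

open Filter Set Polynomial Pool.Agent.Lib.helper1.PolyVdW

theorem refine_col {K : Type*} [AddCommGroup K] {κ : Type*} [Finite κ] (p : Ultrafilter K)
    (χ : K → κ) (A : Set K) (hA : (st p A).Nonempty) :
    ∃ k, (st p (A ∩ {x | χ x = k})).Nonempty := by
  obtain ⟨a, ha⟩ := hA
  have h1 : (⋃ i ∈ (univ : Set κ), {b | a + b ∈ A ∩ {x | χ x = i}}) ∈ p := by
    refine mem_of_superset ha fun b hb => ?_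
    simp only [mem_iUnion]
    exact ⟨χ (a + b), trivial, hb, rfl⟩
  rw [Ultrafilter.finite_biUnion_mem_iff finite_univ] at h1
  obtain ⟨i, -, hi⟩ := h1
  exact ⟨i, a, hi⟩

theorem field_main {K : Type*} [Field K] [CharZero K] {γ : Type*} [Finite γ] (c : K → γ)
    (F : Finset K) (hF0 : ∀ f ∈ F, f ≠ 0)
    (thick : ∀ x : K, x ≠ 0 → ∀ H : Set K, H.Countable → 0 ∉ H →
      ∃ z, z ≠ 0 ∧ ∀ h ∈ H, ∃ f ∈ F, c (z * h) = c (f * x))
    (P : Finset K[X]) (hP : ∀ q ∈ P, q.coeff 0 = 0) :
    ∃ x y : K, x ≠ 0 ∧ y ≠ 0 ∧ c y = c x ∧ c (x * y) = c x ∧ ∀ q ∈ P, c (x + q.eval y) = c x := by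
  classical
  have := Fintype.ofFinite γ
  by_contra hc
  obtain ⟨p, hur⟩ := exists_ur (G := K)
  have halg := alg_st p hur
  let cls : K → (F → γ) := fun x f => c (f * x)
  have thick' : ∀ H : Set K, H.Countable → 0 ∉ H → ∀ k : F → γ, ∃ z, z ≠ 0 ∧
      ((∃ x, x ≠ 0 ∧ cls x = k) → ∀ h ∈ H, ∃ f : F, c (z * h) = k f) := by
    intro H hH h0 k
    by_cases hk : ∃ x, x ≠ 0 ∧ cls x = k
    · obtain ⟨x, hx, rfl⟩ := hk
      obtain ⟨z, hz, h1⟩ := thick x hx H hH h0
      refine ⟨z, hz, fun _ h hh => ?_⟩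
      obtain ⟨f, hf, h2⟩ := h1 h hh
      exact ⟨⟨f, hf⟩, h2⟩
    · exact ⟨1, one_ne_zero, fun h => absurd h hk⟩
  have key : ∀ t : ℕ, ∃ H : Set K, H.Countable ∧ 1 ∈ H ∧ 0 ∉ H ∧
      ∀ (S : Finset (F → γ)) (A : Set K) (π : K) (a ρ : (F → γ) → K),
        Fintype.card (F → γ) < S.card + t → (st p A).Nonempty → 0 ∉ A → π ≠ 0 →
        (∀ k ∈ S, a k * ρ k = π ∧ (∀ h ∈ H, ∃ f : F, c (ρ k * h) = k f) ∧ ∀ x ∈ A,
          cls (a k * x) = k ∧ ∀ q ∈ P, ∀ f : F, cls (a k * x + q.eval (ρ k) / f) = k) → False := by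
    intro t
    induction t with
    | zero =>
      refine ⟨{1}, countable_singleton _, rfl, by simp, fun S _ _ _ _ h _ _ _ _ => ?_⟩
      have := S.card_le_univ
      omega
    | succ t ih =>
      obtain ⟨H, hH, h1, h0, ih⟩ := ih
      let H1 : Set K := (fun z : ℕ × K => ((z.1 + 1 : ℕ) : K) * z.2) '' (univ ×ˢ H)
      have hH1 : H1.Countable := (countable_univ.prod hH).image _
      have h01 : 0 ∉ H1 := by
        rintro ⟨⟨n, h⟩, ⟨-, hh⟩, h2⟩
        rcases mul_eq_zero.1 h2 with h3 | h3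
        · exact Nat.cast_ne_zero.2 (Nat.succ_ne_zero n) h3
        · exact h0 (h3 ▸ hh)
      have hmem : ∀ n : ℕ, 0 < n → ∀ h ∈ H, (n : K) * h ∈ H1 := by
        intro n hn h hh
        obtain ⟨m, rfl⟩ : ∃ m, n = m + 1 := ⟨n - 1, by omega⟩
        exact ⟨(m, h), ⟨trivial, hh⟩, rfl⟩
      choose Z hZ0 hZ using thick' H1 hH1 h01
      refine ⟨insert 1 ((fun z : (F → γ) × K => Z z.1 * z.2) '' (univ ×ˢ H1)),
        ((countable_univ.prod hH1).image _).insert _, mem_insert _ _, ?_, ?_⟩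
      · rintro (h2 | ⟨⟨k, h⟩, ⟨-, hh⟩, h2⟩)
        · exact zero_ne_one h2
        · rcases mul_eq_zero.1 h2 with h3 | h3
          · exact hZ0 _ h3
          · exact h01 (h3 ▸ hh)
      intro S A π a ρ hcard hA hA0 hπ hinv
      obtain ⟨k, hA1⟩ := refine_col p (fun x => cls (π * x)) A hA
      set A1 := A ∩ {x | cls (π * x) = k} with hA1def
      obtain ⟨x0, hx0⟩ : A1.Nonempty := by
        obtain ⟨u, hu⟩ := hA1
        obtain ⟨b, hb⟩ := Ultrafilter.nonempty_of_mem hu
        exact ⟨_, hb⟩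
      have hx00 : x0 ≠ 0 := fun h => hA0 (h ▸ hx0.1)
      by_cases hk : k ∈ S
      · obtain ⟨e1, e2, e3⟩ := hinv k hk
        obtain ⟨f, hf⟩ := e2 1 (mem_insert _ _)
        obtain ⟨e4, e5⟩ := e3 x0 hx0.1
        have hf0 : (f : K) ≠ 0 := hF0 _ f.2
        have ha : a k ≠ 0 := fun h => hπ (by rw [← e1, h, zero_mul])
        have hρ : ρ k ≠ 0 := fun h => hπ (by rw [← e1, h, mul_zero])
        have hX : c (f * (a k * x0)) = k f := congrFun e4 f
        refine hc ⟨f * (a k * x0), ρ k, mul_ne_zero hf0 (mul_ne_zero ha hx00), hρ, ?_, ?_, ?_⟩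
        · rw [hX, ← hf, mul_one]
        · rw [hX]
          have : c (f * (π * x0)) = k f := congrFun hx0.2 f
          rw [← this, ← e1]
          congr 1
          ring
        · intro q hq
          rw [hX]
          have : c (f * (a k * x0 + q.eval (ρ k) / f)) = k f := congrFun (e5 q hq f) f
          rw [← this]
          congr 1
          field_simp
      let a' : (F → γ) → K := fun k' => if k' = k then π else a k'
      let ρ0 : (F → γ) → K := fun k' => if k' = k then 1 else ρ k'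
      let Q : (F → γ) × K[X] × F → K[X] := fun z =>
        C ((z.2.2 * a' z.1 : K)⁻¹) * z.2.1.comp (C (ρ0 z.1 * Z k) * X)
      obtain ⟨n, hn, x, hx, hQ⟩ := pw halg ((insert k S ×ˢ P ×ˢ Finset.univ).image Q) (by
        intro q hq
        obtain ⟨z, hz, rfl⟩ := Finset.mem_image.1 hq
        simp only [Finset.mem_product] at hz
        have := hP _ hz.2.1
        rw [coeff_zero_eq_eval_zero] at this ⊢
        simp [Q, eval_comp, this]) _ ⟨A1, rfl⟩ hA1
      have hy : Z k * n ≠ 0 := mul_ne_zero (hZ0 k) (Nat.cast_ne_zero.2 hn.ne')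
      have hbase : ∀ k' ∈ insert k S, a' k' * ρ0 k' = π ∧ ∀ w ∈ A1, cls (a' k' * w) = k' := by
        intro k' hk'
        by_cases h : k' = k
        · subst h
          simp only [a', ρ0, if_true, mul_one, true_and]
          exact fun w hw => hw.2
        · have hS : k' ∈ S := by simpa [h] using hk'
          simp only [a', ρ0, h, if_false]
          exact ⟨(hinv k' hS).1, fun w hw => ((hinv k' hS).2.2 w hw.1).1⟩
      refine ih (insert k S) (A1 ∩ {w | ∀ q ∈ (insert k S ×ˢ P ×ˢ Finset.univ).image Q,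
        w + q.eval (n : K) ∈ A1}) (π * (Z k * n)) a' (fun k' => ρ0 k' * (Z k * n)) ?_ ⟨x, ?_⟩
        (fun h => hA0 h.1.1) (mul_ne_zero hπ hy) ?_
      · rw [Finset.card_insert_of_notMem hk]
        omega
      · refine inter_mem hx ?_
        have : (⋂ q ∈ (insert k S ×ˢ P ×ˢ Finset.univ).image Q,
            {b | x + q.eval (n : K) + b ∈ A1}) ∈ (p : Filter K) :=
          (biInter_finset_mem _).2 fun q hq => hQ q hq
        refine mem_of_superset this fun b hb q hq => ?_
        simp only [mem_iInter] at hb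
        rw [add_right_comm]
        exact hb q hq
      · intro k' hk'
        obtain ⟨e1, e2⟩ := hbase k' hk'
        refine ⟨by rw [← mul_assoc, e1], fun h hh => ?_, fun w hw => ⟨e2 w hw.1, fun q hq f => ?_⟩⟩
        · by_cases h' : k' = k
          · subst h'
            obtain ⟨f, hf⟩ := hZ k' ⟨_, mul_ne_zero hπ hx00, hx0.2⟩ _ (hmem n hn h hh)
            refine ⟨f, ?_⟩
            rw [← hf]
            simp only [ρ0, if_true]
            congr 1
            ring
          · have hS : k' ∈ S := by simpa [h'] using hk'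
            obtain ⟨f, hf⟩ := (hinv k' hS).2.1 (Z k * (n * h))
              (mem_insert_of_mem _ ⟨(k, n * h), ⟨trivial, hmem n hn h hh⟩, rfl⟩)
            refine ⟨f, ?_⟩
            rw [← hf]
            simp only [ρ0, h', if_false]
            congr 1
            ring
        · have h3 := hw.2 _ (Finset.mem_image_of_mem Q (show (k', q, f) ∈
            insert k S ×ˢ P ×ˢ Finset.univ by simp only [Finset.mem_product]; simp [hq]; simpa using hk'))
          refine Eq.trans ?_ (e2 _ h3)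
          have ha : a' k' ≠ 0 := fun h => hπ (by rw [← e1, h, zero_mul])
          have hf0 : (f : K) ≠ 0 := hF0 _ f.2
          congr 1
          simp only [Q, eval_mul, eval_C, eval_comp, eval_X, mul_assoc]
          field_simp
  obtain ⟨H, -, -, -, h⟩ := key (Fintype.card (F → γ) + 1)
  refine h ∅ {x | x ≠ 0} 1 (fun _ => 1) (fun _ => 1) (by simp) ?_ (by simp) one_ne_zero (by simp)
  by_cases h0 : ({0} : Set K) ∈ p
  · exact ⟨1, mem_of_superset h0 fun b hb => by
      rw [mem_singleton_iff.1 hb]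
      simp⟩
  · exact ⟨0, mem_of_superset (Ultrafilter.compl_mem_iff_notMem.2 h0) fun b hb => by simpa using hb⟩

end Pool.Agent.H.MP_556fef_co
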