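import Pool.Agent.H.MP_556fef_co.A

set_option autoImplicit false

namespace Pool.Agent.H.MP_556fef_co

open Filter Set Polynomial

theorem exists_F {γ : Type*} [Finite γ] (c : ℚ → γ) : ∃ F : Finset ℚ, (∀ f ∈ F, f ≠ 0) ∧
    ∀ k : ℚ → γ, (∃ x, x ≠ 0 ∧ ∀ f ∈ F, k f = c (f * x)) → ∀ H : Finset ℚ, 0 ∉ H →
      ∃ z, z ≠ 0 ∧ ∀ h ∈ H, ∃ f ∈ F, c (z * h) = k f := by
  classical
  have := Fintype.ofFinite γ
  have h1 : ∀ Y : Finset γ, ∃ H : Finset ℚ, 0 ∉ H ∧ ((∃ z, z ≠ 0 ∧ ∀ h ∈ H, c (z * h) ∈ Y) →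
      ∀ H' : Finset ℚ, 0 ∉ H' → ∃ z, z ≠ 0 ∧ ∀ h ∈ H', c (z * h) ∈ Y) := by
    intro Y
    by_cases h : ∀ H' : Finset ℚ, 0 ∉ H' → ∃ z, z ≠ 0 ∧ ∀ h ∈ H', c (z * h) ∈ Y
    · exact ⟨∅, by simp, fun _ => h⟩
    · obtain ⟨H, hH⟩ := not_forall.1 h
      obtain ⟨h0, h2⟩ := Classical.not_imp.1 hH
      exact ⟨H, h0, fun h3 => absurd h3 h2⟩
  choose H h0 hH using h1
  refine ⟨Finset.univ.biUnion H, ?_, ?_⟩
  · intro f hf h
    obtain ⟨Y, -, hY⟩ := Finset.mem_biUnion.1 hf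
    exact h0 Y (h ▸ hY)
  · rintro k ⟨x, hx, hk⟩ H' hH'
    obtain ⟨z, hz, h2⟩ := hH ((Finset.univ.biUnion H).image k) ⟨x, hx, fun h hh => by
      have hm : h ∈ Finset.univ.biUnion H := Finset.mem_biUnion.2 ⟨_, Finset.mem_univ _, hh⟩
      rw [mul_comm, ← hk h hm]
      exact Finset.mem_image_of_mem _ hm⟩ H' hH'
    refine ⟨z, hz, fun h hh => ?_⟩
    obtain ⟨f, hf, h3⟩ := Finset.mem_image.1 (h2 h hh)
    exact ⟨f, hf, h3.symm⟩

noncomputable abbrev U : Filter ℕ := (hyperfilter ℕ : Filter ℕ)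

theorem exists_lim {γ : Type*} [Finite γ] (g : ℕ → γ) : ∃ i, ∀ᶠ r in U, g r = i := by
  have h1 : (⋃ i ∈ (univ : Set γ), {b | g b = i}) ∈ hyperfilter ℕ := by
    refine mem_of_superset (univ_mem : univ ∈ U) fun b _ => ?_
    simp only [mem_iUnion]
    exact ⟨g b, trivial, rfl⟩
  rw [Ultrafilter.finite_biUnion_mem_iff finite_univ] at h1
  obtain ⟨i, -, hi⟩ := h1
  exact ⟨i, hi⟩

theorem exists_col {γ : Type*} [Finite γ] (c : ℚ → γ) : ∃ c' : Germ U ℚ → γ,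
    ∀ g : ℕ → ℚ, ∀ᶠ r in U, c (g r) = c' (g : Germ U ℚ) := by
  have h1 : ∀ x : Germ U ℚ, ∃ i, x.LiftPred fun y => c y = i := fun x =>
    x.inductionOn fun g => exists_lim fun r => c (g r)
  choose c' hc' using h1
  exact ⟨c', fun g => hc' g⟩

theorem germ_ne {g : ℕ → ℚ} (h : (g : Germ U ℚ) ≠ 0) : ∀ᶠ r in U, g r ≠ 0 := by
  have : ¬ ∀ᶠ r in (hyperfilter ℕ : Filter ℕ), g r = 0 := fun h1 => h (Germ.coe_eq.2 h1)
  exact Ultrafilter.eventually_not.2 this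

theorem germ_eval (q : ℤ[X]) (g : ℕ → ℚ) :
    (q.map (Int.castRingHom (Germ U ℚ))).eval (g : Germ U ℚ) =
      ((fun r => aeval (g r) q : ℕ → ℚ) : Germ U ℚ) := by
  have h1 : (fun r => aeval (g r) q : ℕ → ℚ) = q.eval₂ (Int.castRingHom (ℕ → ℚ)) g := by
    funext r
    have := hom_eval₂ q (Int.castRingHom (ℕ → ℚ)) (Pi.evalRingHom (fun _ : ℕ => ℚ) r) g
    rw [aeval_def, RingHom.ext_int (algebraMap ℤ ℚ)
      ((Pi.evalRingHom (fun _ : ℕ => ℚ) r).comp (Int.castRingHom (ℕ → ℚ)))]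
    exact this.symm
  have h2 := hom_eval₂ q (Int.castRingHom (ℕ → ℚ)) (Germ.coeRingHom U) g
  rw [h1, eval_map, RingHom.ext_int (Int.castRingHom (Germ U ℚ))
    ((Germ.coeRingHom U).comp (Int.castRingHom (ℕ → ℚ)))]
  exact h2.symm

theorem rat_main {γ : Type*} [Finite γ] (c : ℚ → γ) (P : Finset ℤ[X])
    (hP : ∀ q ∈ P, q.coeff 0 = 0) :
    ∃ x y : ℚ, x ≠ 0 ∧ y ≠ 0 ∧ c y = c x ∧ c (x * y) = c x ∧
      ∀ q ∈ P, c (x + aeval y q) = c x := by
  classical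
  obtain ⟨F, hF0, hF⟩ := exists_F c
  obtain ⟨c', hc'⟩ := exists_col c
  let ι : ℚ → Germ U ℚ := fun f => ((fun _ => f : ℕ → ℚ) : Germ U ℚ)
  have huniq : ∀ (g : ℕ → ℚ) (i : γ), (∀ᶠ r in U, c (g r) = i) → c' g = i := by
    intro g i h
    obtain ⟨r, h1, h2⟩ := (h.and (hc' g)).exists
    rw [← h1, h2]
  obtain ⟨x, y, hx, hy, h1, h2, h3⟩ := field_main c' (F.image ι) (by
      intro f hf h0
      obtain ⟨f', hf', rfl⟩ := Finset.mem_image.1 hf
      obtain ⟨r, hr⟩ := (Germ.coe_eq.1 h0).exists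
      exact hF0 f' hf' hr) (by
      intro x hx H hH h0
      induction x using Germ.inductionOn with | h x => ?_
      rcases H.eq_empty_or_nonempty with rfl | hne
      · exact ⟨1, one_ne_zero, by simp⟩
      obtain ⟨e, rfl⟩ := hH.exists_eq_range hne
      have hrep : ∀ i, ∃ g : ℕ → ℚ, (g : Germ U ℚ) = e i := fun i =>
        (e i).inductionOn fun g => ⟨g, rfl⟩
      choose g hg using hrep
      let k : ℚ → γ := fun f => c' (ι f * x)
      have hk : ∃ x0, x0 ≠ 0 ∧ ∀ f ∈ F, k f = c (f * x0) := by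
        have h4 : ∀ᶠ r in U, ∀ f ∈ F, c (f * x r) = k f :=
          (eventually_all_finset F).2 fun f _ => hc' fun r => f * x r
        obtain ⟨r, h5, h6⟩ := ((germ_ne hx).and h4).exists
        exact ⟨x r, h5, fun f hf => (h6 f hf).symm⟩
      have hz : ∀ r : ℕ, ∃ z, z ≠ 0 ∧ ∀ h ∈ ((Finset.range (r + 1)).image fun i => g i r).erase 0,
          ∃ f ∈ F, c (z * h) = k f := fun r => hF k hk _ (by simp)
      choose z hz0 hz using hz
      refine ⟨z, fun h => ?_, ?_⟩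
      · obtain ⟨r, hr⟩ := (Germ.coe_eq.1 h).exists
        exact hz0 r hr
      · rintro _ ⟨i, rfl⟩
        have h4 : ∀ᶠ r in U, g i r ≠ 0 := germ_ne fun h => h0 ⟨i, by rw [← hg, h]⟩
        have h5 : ∀ᶠ r in U, i ≤ r := Nat.hyperfilter_le_atTop (eventually_ge_atTop i)
        obtain ⟨r, ⟨h6, h7⟩, h8⟩ := ((h4.and h5).and (hc' fun r => z r * g i r)).exists
        obtain ⟨f, hf, h9⟩ := hz r (g i r) (Finset.mem_erase.2 ⟨h6,
          Finset.mem_image.2 ⟨i, Finset.mem_range.2 (by omega), rfl⟩⟩)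
        refine ⟨ι f, Finset.mem_image_of_mem _ hf, ?_⟩
        rw [← hg]
        exact h8.symm.trans h9)
    (P.image (Polynomial.map (Int.castRingHom (Germ U ℚ)))) (by
      intro q hq
      obtain ⟨q', hq', rfl⟩ := Finset.mem_image.1 hq
      simp [hP q' hq'])
  induction x using Germ.inductionOn with | h x => ?_
  induction y using Germ.inductionOn with | h y => ?_
  have h4 : ∀ᶠ r in U, ∀ q ∈ P, c (x r + aeval (y r) q) = c' x :=
    (eventually_all_finset P).2 fun q hq => by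
      have := h3 _ (Finset.mem_image_of_mem _ hq)
      rw [germ_eval] at this
      rw [← this]
      exact hc' fun r => x r + aeval (y r) q
  obtain ⟨r, ⟨⟨a1, a2⟩, a3, a4⟩, a5, a6⟩ := ((((germ_ne hx).and (germ_ne hy)).and
    ((hc' x).and (hc' y))).and ((hc' fun r => x r * y r).and h4)).exists
  exact ⟨x r, y r, a1, a2, by rw [a3, a4, h1], by rw [a3, a5]; exact h2,
    fun q hq => by rw [a6 q hq, a3]⟩

end Pool.Agent.H.MP_556fef_co
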